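import Pool.Agent.MT100D.Stmts
import Pool.Agent.Helper19_MT100G.Hpl
import Pool.Agent.Helper47_MT100G.Uni

/-! Module HTRD of MT100-D: the monodromy group of a far half plane is trivial. -/

set_option autoImplicit false

namespace Pool.Agent.MT100D.H96

open Matrix Polynomial Pool.Agent.MT100 Pool.Agent.MT100G Pool.Agent.MT100A Pool.Agent.MT100D
  Pool.Agent.Helper78_MT

theorem htr : HtrDStmt := by
  intro d _ _ q B R Y hB
  have hsol := hB.sol
  refine ⟨R, fun g hg => ?_⟩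
  have hg' : ∀ᶠ c : ℝ in Filter.atTop, Cnt q B {w | R < w.re} ((c : ℂ), 1, Y)
    ((c : ℂ), 1, fun w => Y w * g) := hg
  obtain ⟨c, hc1, hc2⟩ := (hg'.and (Filter.eventually_gt_atTop (R + 1))).exists
  have h1 := MT100G.H19.chain_eq MT100G.H47.uni hsol hc1 (c : ℂ) (Metric.mem_ball_self one_pos)
  have h2 : Y (c : ℂ) * g = Y (c : ℂ) := h1
  have hS : SolOn q B (c : ℂ) 1 Y := by
    refine hsol c 1 one_pos fun w hw => ?_
    rw [Metric.mem_ball, dist_eq_norm] at hw
    have h1 : |(w - c).re| ≤ ‖w - c‖ := Complex.abs_re_le_norm _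
    have h2 : (w - (c : ℂ)).re = w.re - c := by simp
    rw [h2] at h1
    have h3 := (abs_le.mp (h1.trans hw.le)).1
    show R < w.re
    linarith
  have h4 := hS.det (c : ℂ) (Metric.mem_ball_self one_pos)
  have h5 : (Y (c : ℂ))⁻¹ * (Y (c : ℂ) * g) = (Y (c : ℂ))⁻¹ * Y (c : ℂ) := by rw [h2]
  rwa [← Matrix.mul_assoc, Matrix.nonsing_inv_mul _ h4, Matrix.one_mul] at h5

end Pool.Agent.MT100D.H96
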